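import Pool.Agent.Helper46.RankNull.Final

/-!
# MP_d1a043_co, Q2: the Hilbert function of a rank-nullity ring need not be log-concave

For every `C` there is a matroid `M` on `[n]` with `C * h_M(2)^2 < h_M(1) * h_M(3)`.
-/

namespace Pool.Agent.Results.MP_d1a043_co.NotLogConcave

open Pool.Agent.Helper46.RankNull

theorem result (C : ℕ) :
    ∃ (n : ℕ) (M : Matroid (Fin n)), 1 ≤ n ∧ M.E = Set.univ ∧
      C * hilb M 2 ^ 2 < hilb M 1 * hilb M 3 :=
  not_log_concave C

end Pool.Agent.Results.MP_d1a043_co.NotLogConcave
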